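import Pool.Agent.H916Y.Leg

/-!
# Project TF (helper919): parities of supports, with weights (copy of `H916Y/Even.lean`, `H916Y/Leg.lean`)
-/

set_option autoImplicit false
set_option linter.unusedSectionVars false

namespace Run7.h957.TF

open Finset Pool.Agent.H916R2 Pool.Agent.H916T Pool.Agent.H916U Pool.Agent.H916Z Pool.Agent.H916Q
open Pool.Agent.H916Y Pool.Agent

/-- half of `j - 1` -/
def dw {m : ℕ} (j : PF m) : ℤ := (((j : ℕ) : ℤ) - 1) / 2

lemma two_dw {m : ℕ} {j : PF m} (h : (j : ℕ) % 4 = 3) : ((j : ℕ) : ℤ) - 1 = 2 * dw j := by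
  unfold dw
  omega

lemma dw_odd {m : ℕ} {j : PF m} (h : (j : ℕ) % 4 = 3) : ¬ 2 ∣ dw j := by
  unfold dw
  omega

/-- the family of functions -/
noncomputable def famw {m : ℕ} (Q0 R : Finset (PF m)) (ω : (∀ i, GG m i) → ℤ) :
    Finset (PF m) → (∀ i, GG m i) → ℤ := fun U =>
  if Q0 ⊆ U ∧ U ⊆ Q0 ∪ R then (fun x => ω x * ∏ j ∈ R \ U, dw j) else fun _ => 0

/-- the conditions on the function -/
structure GenW (m : ℕ) (Q0 R : Finset (PF m)) (ω : (∀ i, GG m i) → ℤ) : Prop where
  three : ∀ j ∈ R, (j : ℕ) % 4 = 3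
  disj : ∀ j ∈ R, j ∉ Q0
  ne : Q0.Nonempty
  ind : ∀ k, k ∉ Q0 → Ind k ω
  odd : ∀ x, ω (sg m * x) = - ω x
  nn : ∀ i ∈ Q0, ∀ x, NN i ω x = 0
  inv : ∀ j, j ∉ Q0 → j ∉ R → ∀ x, ω (tt m j * x) = ω x
  neg : ∀ j ∈ R, ∀ x, ω (tt m j * x) = - ω x
  par : ∀ x, ¬ 2 ∣ ω x

variable {m : ℕ} {Q0 R : Finset (PF m)} {ω : (∀ i, GG m i) → ℤ}

theorem GenW.dist (h : GenW m Q0 R ω) : Dist (sg m) (tt m) (famw Q0 R ω) where
  ind := by
    intro U k hk
    unfold famw
    by_cases hU : Q0 ⊆ U ∧ U ⊆ Q0 ∪ R
    · rw [if_pos hU]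
      intro y x
      show ω (Pi.mulSingle k y * x) * _ = ω x * _
      rw [h.ind k (fun h' => hk (hU.1 h')) y x]
    · rw [if_neg hU]
      exact fun _ _ => rfl
  odd := by
    intro U x
    unfold famw
    by_cases hU : Q0 ⊆ U ∧ U ⊆ Q0 ∪ R
    · rw [if_pos hU]
      show ω (sg m * x) * _ = -(ω x * _)
      rw [h.odd x]
      ring
    · rw [if_neg hU]; simp
  rel := by
    intro U j hj
    funext x
    by_cases hQ : Q0 ⊆ U
    · by_cases hjQ : j ∈ Q0
      · have h1 : ¬ (Q0 ⊆ U.erase j ∧ U.erase j ⊆ Q0 ∪ R) := fun h' => notMem_erase j U (h'.1 hjQ)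
        have h2 : DD (tt m j) (famw Q0 R ω (U.erase j)) x = 0 := by
          unfold famw
          rw [if_neg h1]; simp [DD]
        rw [h2]
        unfold famw
        by_cases hU : Q0 ⊆ U ∧ U ⊆ Q0 ∪ R
        · rw [if_pos hU]
          unfold NN
          rw [← Finset.sum_mul]
          have := h.nn j hjQ x
          unfold NN at this
          rw [this, zero_mul]
        · rw [if_neg hU]; simp [NN]
      · have hQe : Q0 ⊆ U.erase j := fun y hy => mem_erase.mpr ⟨fun h' => hjQ (h' ▸ hy), hQ hy⟩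
        by_cases hU : U ⊆ Q0 ∪ R
        · have hjR : j ∈ R := by
            rcases mem_union.mp (hU hj) with h' | h'
            · exact absurd h' hjQ
            · exact h'
          have h1 : Q0 ⊆ U.erase j ∧ U.erase j ⊆ Q0 ∪ R := ⟨hQe, (erase_subset _ _).trans hU⟩
          unfold famw
          rw [if_pos h1, if_pos ⟨hQ, hU⟩]
          unfold DD NN
          have h2 : ∀ y : GG m j, ω (Pi.mulSingle j y * x) = ω x := fun y => h.ind j hjQ y x
          have hset : R \ U.erase j = insert j (R \ U) := by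
            ext k
            simp only [mem_sdiff, mem_erase, mem_insert]
            constructor
            · rintro ⟨hk1, hk2⟩
              by_cases hkj : k = j
              · left; exact hkj
              · right
                exact ⟨hk1, fun hk => hk2 ⟨hkj, hk⟩⟩
            · rintro (hk | ⟨hk1, hk2⟩)
              · subst hk
                exact ⟨hjR, fun h' => h'.1 rfl⟩
              · exact ⟨hk1, fun h' => hk2 h'.2⟩
          have hnot : j ∉ R \ U := fun h' => (mem_sdiff.mp h').2 hj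
          beta_reduce
          have h5 : ∀ y ∈ (univ : Finset (GG m j)), ω (Pi.mulSingle j y * x) * ∏ j ∈ R \ U, dw j =
              ω x * ∏ j ∈ R \ U, dw j := fun y _ => by rw [h2 y]
          rw [sum_congr rfl h5, h.neg j hjR, sum_const, card_univ,
            nsmul_eq_mul, hset, prod_insert hnot]
          have h3 : ((Fintype.card (GG m j) : ℕ) : ℤ) = 2 * dw j := by
            rw [ZMod.card_units_eq_totient, ← two_dw (h.three j hjR),
              Nat.totient_prime (Fact.out : (j : ℕ).Prime),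
              Nat.cast_sub (Fact.out : (j : ℕ).Prime).one_le]
            push_cast
            ring
          rw [h3]
          ring
        · have h1 : ¬ (Q0 ⊆ U ∧ U ⊆ Q0 ∪ R) := fun h' => hU h'.2
          have h2 : NN j (famw Q0 R ω U) x = 0 := by
            unfold famw
            rw [if_neg h1]; simp [NN]
          rw [h2]
          unfold famw
          by_cases h3 : Q0 ⊆ U.erase j ∧ U.erase j ⊆ Q0 ∪ R
          · rw [if_pos h3]
            have h4 : j ∉ R := by
              intro h'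
              apply hU
              intro y hy
              by_cases hyj : y = j
              · rw [hyj]; exact mem_union_right _ h'
              · exact h3.2 (mem_erase.mpr ⟨hyj, hy⟩)
            unfold DD
            beta_reduce
            rw [h.inv j hjQ h4]; ring
          · rw [if_neg h3]; simp [DD]
    · have h1 : ¬ (Q0 ⊆ U ∧ U ⊆ Q0 ∪ R) := fun h' => hQ h'.1
      have h2 : ¬ (Q0 ⊆ U.erase j ∧ U.erase j ⊆ Q0 ∪ R) :=
        fun h' => hQ (h'.1.trans (erase_subset _ _))
      unfold famw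
      rw [if_neg h1, if_neg h2]
      simp [NN, DD]
  zero := by
    intro x
    unfold famw
    have h1 : ¬ (Q0 ⊆ ∅ ∧ (∅ : Finset (PF m)) ⊆ Q0 ∪ R) := by
      rintro ⟨h', _⟩
      obtain ⟨y, hy⟩ := h.ne
      exact absurd (h' hy) (by simp)
    rw [if_neg h1]

variable [NeZero m]

open scoped Classical in
/-- **Evenness.** -/
theorem even_countw {p : ℕ} (hp : p.Coprime m) {s : Multiset (ZMod m)} (hs : Rel0 p s)
    (hG : GenW m Q0 R ω) (h2Q : ∀ i ∈ Q0, (i : ℕ) ≠ 2) (hpi : ∀ x, ω (vec m p * x) = ω x) :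
    Even (s.countP fun a => Q0 ⊆ H916Q.TT m (addOrderOf a) ∧ H916Q.TT m (addOrderOf a) ⊆ Q0 ∪ R) := by
  set φ := famw Q0 R ω with hφdef
  have hφ : Dist (sg m) (tt m) φ := hG.dist
  have hinv : ∀ U x, φ U (vec m p * x) = φ U x := by
    intro U x
    simp only [hφdef, famw]
    split_ifs with h
    · beta_reduce
      rw [hpi x]
    · rfl
  obtain ⟨k, hk, hk0⟩ := H916D.torsion_sum hp (Psi_od' hφ) (Psi_inv hφ hp hinv) s hs
  have hsum : (s.map (Psi φ)).sum = 0 := by
    rw [nsmul_eq_mul] at hk0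
    rcases mul_eq_zero.mp hk0 with h | h
    · exact absurd (by exact_mod_cast h) hk.ne'
    · exact h
  -- divide by the power of two
  obtain ⟨v, m', hm', hmm⟩ := Nat.exists_eq_two_pow_mul_odd (NeZero.ne m)
  have h2v : (2 : ℤ) ^ v ≠ 0 := pow_ne_zero _ two_ne_zero
  set P : ZMod m → Prop := fun a => Q0 ⊆ H916Q.TT m (addOrderOf a) ∧ H916Q.TT m (addOrderOf a) ⊆ Q0 ∪ R with hP
  have hodd : ∀ a : ZMod m, P a → ∃ r : ℤ, ¬ 2 ∣ r ∧ Psi φ a = 2 ^ v * r := by
    intro a ha
    have h2n : ¬ 2 ∣ addOrderOf a := by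
      intro h2
      have h2m : 2 ∣ m := h2.trans (addOrderOf_dvd_level a)
      have h3 : (⟨2, Nat.mem_primeFactors.mpr ⟨Nat.prime_two, h2m, NeZero.ne m⟩⟩ : PF m) ∈
          H916Q.TT m (addOrderOf a) := mem_TT.mpr h2
      rcases mem_union.mp (ha.2 h3) with h4 | h4
      · exact h2Q _ h4 rfl
      · have := hG.three _ h4
        simp at this
    have hdvd := addOrderOf_dvd_level a
    have hg : Nat.gcd a.val m = m / addOrderOf a := by
      rw [H916Q.addOrderOf_eq, Nat.div_div_self (Nat.gcd_dvd_right _ _) (NeZero.ne m)]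
    have hcop : (addOrderOf a).Coprime (2 ^ v) := by
      apply Nat.Coprime.pow_right
      rw [Nat.coprime_comm, Nat.prime_two.coprime_iff_not_dvd]
      exact h2n
    have hdm' : addOrderOf a ∣ m' := by
      have h5 : addOrderOf a ∣ 2 ^ v * m' := hmm ▸ hdvd
      exact hcop.dvd_of_dvd_mul_left h5
    obtain ⟨e, he⟩ := hdm'
    have hpos := addOrderOf_pos a
    have hge : Nat.gcd a.val m = 2 ^ v * e := by
      have h5 : m = addOrderOf a * (2 ^ v * e) := by
        calc m = 2 ^ v * m' := hmm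
          _ = 2 ^ v * (addOrderOf a * e) := congrArg (fun z => 2 ^ v * z) he
          _ = addOrderOf a * (2 ^ v * e) := by ring
      rw [hg]
      exact Nat.div_eq_of_eq_mul_right hpos h5
    have heodd : ¬ 2 ∣ e := by
      intro h
      have h5 : 2 ∣ m' := he ▸ (h.mul_left _)
      exact (Nat.not_even_iff_odd.mpr hm') (even_iff_two_dvd.mpr h5)
    refine ⟨(e : ℤ) * (∏ i ∈ H916Q.TT m (m / Nat.gcd a.val m), ((i : ℕ) : ℤ)) *
      (ω (vec m (a.val / Nat.gcd a.val m)) * ∏ j ∈ R \ H916Q.TT m (m / Nat.gcd a.val m), dw j),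
      ?_, ?_⟩
    · intro h
      rcases Int.prime_two.dvd_or_dvd h with h | h
      · rcases Int.prime_two.dvd_or_dvd h with h | h
        · exact heodd (by exact_mod_cast h)
        · rw [Prime.dvd_finsetProd_iff Int.prime_two] at h
          obtain ⟨i, hi, hi2⟩ := h
          rw [← H916Q.addOrderOf_eq] at hi
          have h6 : 2 ∣ (i : ℕ) := by exact_mod_cast hi2
          have hip : (i : ℕ).Prime := Fact.out
          have h7 := (Nat.prime_dvd_prime_iff_eq Nat.prime_two hip).mp h6
          rw [mem_TT, ← h7] at hi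
          exact h2n hi
      · rcases Int.prime_two.dvd_or_dvd h with h | h
        · exact hG.par _ h
        · rw [Prime.dvd_finsetProd_iff Int.prime_two] at h
          obtain ⟨i, hi, hi2⟩ := h
          exact dw_odd (hG.three i (mem_sdiff.mp hi).1) hi2
    · unfold Psi PsiN
      have h8 : φ (H916Q.TT m (m / Nat.gcd a.val m)) =
          fun x => ω x * ∏ j ∈ R \ H916Q.TT m (m / Nat.gcd a.val m), dw j := by
        simp only [hφdef, famw]
        rw [← H916Q.addOrderOf_eq, if_pos ha]
      rw [h8]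
      have h9 : ((Nat.gcd a.val m : ℕ) : ℤ) = 2 ^ v * (e : ℤ) := by
        rw [hge]; push_cast; rfl
      rw [h9]; ring
  have hzero : ∀ a : ZMod m, ¬ P a → Psi φ a = 0 := by
    intro a ha
    unfold Psi PsiN
    have h8 : φ (H916Q.TT m (m / Nat.gcd a.val m)) = fun _ => 0 := by
      simp only [hφdef, famw]
      rw [← H916Q.addOrderOf_eq, if_neg ha]
    rw [h8]; simp
  choose! r hr1 hr2 using hodd
  refine countP_parity P (fun a => if P a then r a else 0) ?_ s ?_
  · intro a
    by_cases ha : P a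
    · simp only [if_pos ha]
      exact ⟨fun h => absurd h (hr1 a ha), fun h => absurd ha h⟩
    · simp only [if_neg ha]
      exact ⟨fun _ => ha, fun _ => dvd_zero 2⟩
  · have h1 : (s.map (Psi φ)).sum = 2 ^ v * (s.map fun a => if P a then r a else 0).sum := by
      rw [← Multiset.sum_map_mul_left]
      congr 1
      refine Multiset.map_congr rfl fun a _ => ?_
      by_cases ha : P a
      · rw [if_pos ha]; exact hr2 a ha
      · rw [if_neg ha, hzero a ha, mul_zero]
    rw [h1] at hsum
    exact (mul_eq_zero.mp hsum).resolve_left h2v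

end Run7.h957.TF
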