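import Pool.Agent.Run7.h919.TF.Iface
import Pool.Agent.Run7.h957.TF.Evw

/-!
# Project TF (helper919): the pieces PARO and PAR
-/

set_option autoImplicit false
set_option linter.unusedSectionVars false

namespace Run7.h957.TF

open Finset Pool.Agent.H916R2 Pool.Agent.H916T Pool.Agent.H916U Pool.Agent.H916Z Pool.Agent.H916Q
open Pool.Agent.H916Y Pool.Agent
open Run7.h919.TF (S_PARO S_PAR Deg)

lemma jac_prod (a : ℤ) (S : Finset ℕ) (h : ∀ q ∈ S, q ≠ 0) :
    jacobiSym a (∏ q ∈ S, q) = ∏ q ∈ S, jacobiSym a q := by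
  classical
  induction S using Finset.induction_on with
  | empty => simp
  | insert i Q0 hi ih =>
    rw [prod_insert hi, prod_insert hi, ← ih fun q hq => h q (mem_insert_of_mem hq)]
    have h1 : NeZero i := ⟨h i (mem_insert_self i Q0)⟩
    have h2 : NeZero (∏ q ∈ Q0, q) :=
      ⟨prod_ne_zero_iff.mpr fun j hj => h j (mem_insert_of_mem hj)⟩
    rw [jacobiSym.mul_right]

theorem t_PARO : S_PARO := by
  classical
  intro p m _ hp s hs S hS h2 hne hneg hp1 hj hV
  have hpp : ∀ i : PF m, ¬ (i : ℕ) ∣ p := by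
    intro i h
    exact not_dvd_of_coprime (Fact.out : (i : ℕ).Prime) hp (Nat.dvd_of_mem_primeFactors i.2) h
  obtain ⟨R', hR'⟩ : ∃ R' : Finset ℕ, R' = m.primeFactors.filter
    (fun j => j ∉ S ∧ jacobiSym (j : ℤ) (∏ q ∈ S, q) = -1) := ⟨_, rfl⟩
  have hR'm : ∀ j, j ∈ R' ↔ j ∈ m.primeFactors ∧ j ∉ S ∧ jacobiSym (j : ℤ) (∏ q ∈ S, q) = -1 := by
    intro j
    rw [hR', mem_filter]
  have hR'3 : ∀ j ∈ R', j % 4 = 3 := by
    intro j hj'
    obtain ⟨h3, h4, h5⟩ := (hR'm j).1 hj'
    rcases hj j h3 h4 with h6 | h6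
    · rw [h5] at h6
      exact absurd h6 (by norm_num)
    · exact h6.1
  have htt : ∀ j, j ∉ FS m S → om (FS m S) (tt m j) = jacobiSym ((j : ℕ) : ℤ) (∏ q ∈ S, q) := by
    intro j hjS
    unfold tt
    rw [om_inv, om_vec, prod_FS hS]
    intro i hi h
    have hip : (i : ℕ).Prime := Fact.out
    have hjp : (j : ℕ).Prime := Fact.out
    have h3 : i = j := Subtype.ext ((Nat.prime_dvd_prime_iff_eq hip hjp).mp h)
    exact hjS (h3 ▸ hi)
  have hG : GenW m (FS m S) (FS m R') (om (FS m S)) := by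
    refine ⟨?_, ?_, ?_, ?_, ?_, ?_, ?_, ?_, om_par _⟩
    · intro j hj'
      exact hR'3 _ (mem_FS.mp hj')
    · intro j hj' h3
      exact ((hR'm _).1 (mem_FS.mp hj')).2.1 (mem_FS.mp h3)
    · obtain ⟨q, hq⟩ := hne
      exact ⟨⟨q, hS hq⟩, mem_FS.mpr hq⟩
    · exact om_ind _
    · intro x
      rw [om_mul, om_sg, prod_FS hS, hneg, neg_one_mul]
    · intro i hi x
      exact om_nn _ i hi (fun h => h2 (h ▸ mem_FS.mp hi)) x
    · intro j hjS hjR x
      have h4 : (j : ℕ) ∉ S := fun h => hjS (mem_FS.mpr h)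
      have h5 : jacobiSym ((j : ℕ) : ℤ) (∏ q ∈ S, q) = 1 := by
        rcases hj j j.2 h4 with h6 | h6
        · exact h6
        · exact absurd (mem_FS.mpr ((hR'm _).2 ⟨j.2, h4, h6.2⟩)) hjR
      rw [om_mul, htt j hjS, h5, one_mul]
    · intro j hjR x
      obtain ⟨h3, h4, h5⟩ := (hR'm _).1 (mem_FS.mp hjR)
      rw [om_mul, htt j (fun h => h4 (mem_FS.mp h)), h5, neg_one_mul]
  have h1 := even_countw hp hs hG (fun i hi h => h2 (h ▸ mem_FS.mp hi)) (by
    intro x
    rw [om_mul, om_vec _ _ (fun i _ => hpp i), prod_FS hS, hp1, one_mul])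
  -- the family of supports
  obtain ⟨Fa, hFa⟩ : ∃ Fa : Finset (Finset ℕ), Fa = (S ∪ R').powerset.filter (fun V => S ⊆ V) :=
    ⟨_, rfl⟩
  have hFam : ∀ V, V ∈ Fa ↔ V ⊆ S ∪ R' ∧ S ⊆ V := by
    intro V
    rw [hFa, mem_filter, mem_powerset]
  have hP : ∀ a : ZMod m, (FS m S ⊆ H916Q.TT m (addOrderOf a) ∧
      H916Q.TT m (addOrderOf a) ⊆ FS m S ∪ FS m R') ↔ (addOrderOf a).primeFactors ∈ Fa := by
    intro a
    rw [hFam]
    have hpos : addOrderOf a ≠ 0 := (addOrderOf_pos a).ne'
    have hdm : addOrderOf a ∣ m := addOrderOf_dvd_level a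
    constructor
    · rintro ⟨h3, h4⟩
      constructor
      · intro q hq
        have hqm : q ∈ m.primeFactors := Nat.primeFactors_mono hdm (NeZero.ne m) hq
        have h5 : (⟨q, hqm⟩ : PF m) ∈ H916Q.TT m (addOrderOf a) :=
          mem_TT.mpr (Nat.dvd_of_mem_primeFactors hq)
        rcases mem_union.mp (h4 h5) with h6 | h6
        · exact mem_union_left _ (mem_FS.mp h6)
        · exact mem_union_right _ (mem_FS.mp h6)
      · intro q hq
        have h5 : (⟨q, hS hq⟩ : PF m) ∈ H916Q.TT m (addOrderOf a) := h3 (mem_FS.mpr hq)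
        exact Nat.mem_primeFactors.mpr ⟨Nat.prime_of_mem_primeFactors (hS hq), mem_TT.mp h5, hpos⟩
    · rintro ⟨h3, h4⟩
      constructor
      · intro i hi
        exact mem_TT.mpr (Nat.dvd_of_mem_primeFactors (h4 (mem_FS.mp hi)))
      · intro i hi
        have h5 : (i : ℕ) ∈ (addOrderOf a).primeFactors :=
          Nat.mem_primeFactors.mpr ⟨Fact.out, mem_TT.mp hi, hpos⟩
        rcases mem_union.mp (h3 h5) with h6 | h6
        · exact mem_union_left _ (mem_FS.mpr h6)
        · exact mem_union_right _ (mem_FS.mpr h6)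
  have hsum : ∀ s : Multiset (ZMod m), (s.countP fun a => FS m S ⊆ H916Q.TT m (addOrderOf a) ∧
      H916Q.TT m (addOrderOf a) ⊆ FS m S ∪ FS m R') = ∑ V ∈ Fa, s.countP (Supp V) := by
    intro s
    induction s using Multiset.induction_on with
    | empty => simp
    | cons a s ih =>
      simp only [Multiset.countP_cons]
      rw [ih, Finset.sum_add_distrib]
      congr 1
      have h3 : ∀ V : Finset ℕ, (if Supp V a then 1 else 0 : ℕ) =
          if (addOrderOf a).primeFactors = V then 1 else 0 := by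
        intro V
        by_cases h4 : (addOrderOf a).primeFactors = V
        · rw [if_pos (show Supp V a from h4), if_pos h4]
        · rw [if_neg (show ¬ Supp V a from h4), if_neg h4]
      rw [Finset.sum_congr rfl fun V _ => h3 V, Finset.sum_ite_eq]
      by_cases h4 : (addOrderOf a).primeFactors ∈ Fa
      · rw [if_pos h4, if_pos ((hP a).mpr h4)]
      · rw [if_neg h4, if_neg (fun h5 => h4 ((hP a).mp h5))]
  rw [hsum] at h1
  have hSF : S ∈ Fa := (hFam S).2 ⟨subset_union_left, Subset.refl S⟩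
  rw [← Finset.add_sum_erase Fa _ hSF] at h1
  have h3 : Even (∑ V ∈ Fa.erase S, s.countP (Supp V)) := by
    refine Finset.even_sum _ fun V hVm => ?_
    obtain ⟨h4, h5⟩ := mem_erase.mp hVm
    obtain ⟨h6, h7⟩ := (hFam V).1 h5
    refine hV V ?_ (Finset.ssubset_iff_subset_ne.mpr ⟨h7, fun h8 => h4 h8.symm⟩) ?_
    · intro q hq
      rcases mem_union.mp (h6 hq) with h8 | h8
      · exact hS h8
      · exact ((hR'm q).1 h8).1
    · intro h8
      rcases mem_union.mp (h6 h8) with h9 | h9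
      · exact h2 h9
      · have := hR'3 2 h9
        omega
  exact (Nat.even_add.mp h1).mpr h3

theorem t_PAR (hPARO : S_PARO) : S_PAR := by
  classical
  intro p m _ hp hdeg s hs S hS h2 hodd hp1 hV
  have hSp : ∀ q ∈ S, q.Prime := fun q hq => Nat.prime_of_mem_primeFactors (hS hq)
  have hS3 : ∀ q ∈ S, q % 4 = 3 := by
    intro q hq
    rcases hdeg.1 q (hSp q hq) (Nat.dvd_of_mem_primeFactors (hS hq)) with h | h
    · exact absurd (h ▸ hq) h2
    · exact h
  have hne : S.Nonempty := by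
    rw [← Finset.card_pos]
    exact hodd.pos
  have hneg : jacobiSym (-1) (∏ q ∈ S, q) = -1 := by
    rw [jac_prod _ _ fun q hq => (hSp q hq).ne_zero]
    have h3 : ∀ q ∈ S, jacobiSym (-1) q = -1 := by
      intro q hq
      have h4 := hS3 q hq
      rw [jacobiSym.at_neg_one (Nat.odd_iff.mpr (by omega)), ZMod.χ₄_nat_three_mod_four h4]
    rw [Finset.prod_congr rfl h3, Finset.prod_const]
    exact hodd.neg_one_pow
  -- a prime outside `S`
  have hjac : ∀ j : ℕ, j.Prime → j ∉ S → jacobiSym (j : ℤ) (∏ q ∈ S, q) = 1 ∨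
      jacobiSym (j : ℤ) (∏ q ∈ S, q) = -1 := by
    intro j hjp hjS
    refine jacobiSym.eq_one_or_neg_one ?_
    rw [Int.gcd_natCast_natCast]
    refine Nat.Coprime.prod_right fun q hq => ?_
    exact (Nat.coprime_primes hjp (hSp q hq)).mpr fun h => hjS (h ▸ hq)
  by_cases h4 : 4 ∣ m
  · refine hPARO p m hp s hs S hS h2 hne hneg hp1 ?_ hV
    intro j hjm hjS
    have hjp := Nat.prime_of_mem_primeFactors hjm
    have h7 : ∀ q : ℕ, q.Prime → q ∣ m → q = 2 ∨ q % 8 = 7 := by
      rcases hdeg.2 with h | h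
      · exact absurd h4 h
      · exact h
    rcases h7 j hjp (Nat.dvd_of_mem_primeFactors hjm) with h8 | h8
    · left
      rw [h8, jac_prod _ _ fun q hq => (hSp q hq).ne_zero]
      refine Finset.prod_eq_one fun q hq => ?_
      have h9 : q % 8 = 7 := by
        rcases h7 q (hSp q hq) (Nat.dvd_of_mem_primeFactors (hS hq)) with h | h
        · exact absurd (h ▸ hq) h2
        · exact h
      rw [Nat.cast_ofNat, jacobiSym.at_two (Nat.odd_iff.mpr (by omega))]
      rw [ZMod.χ₈_nat_eq_if_mod_eight]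
      rw [if_neg (by omega), if_pos (Or.inr h9)]
    · rcases hjac j hjp hjS with h9 | h9
      · left; exact h9
      · right; exact ⟨by omega, h9⟩
  · obtain ⟨k, n, hn, hk, hkn, hn2⟩ := exists_odd_level (NeZero.pos m) h4
    obtain ⟨s', hs', hS'⟩ := oddize_rel hn hk hkn hn2 hp hs
    have hzn : NeZero n := ⟨hn.ne'⟩
    have hnm : n ∣ m := Dvd.intro_left k hkn
    rw [← hS' S h2]
    have hpf : n.primeFactors ⊆ m.primeFactors := Nat.primeFactors_mono hnm (NeZero.ne m)
    refine hPARO p n (Nat.Coprime.coprime_dvd_right hnm hp) s' hs' S ?_ h2 hne hneg hp1 ?_ ?_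
    · intro q hq
      have hqp := hSp q hq
      have hqm := Nat.dvd_of_mem_primeFactors (hS hq)
      rw [← hkn] at hqm
      refine Nat.mem_primeFactors.mpr ⟨hqp, ?_, hn.ne'⟩
      rcases hqp.dvd_mul.mp hqm with h | h
      · exfalso
        rcases hk with rfl | rfl
        · exact hqp.one_lt.ne' (Nat.dvd_one.mp h)
        · have := (Nat.prime_dvd_prime_iff_eq hqp Nat.prime_two).mp h
          exact h2 (this ▸ hq)
      · exact h
    · intro j hjn hjS
      have hjp := Nat.prime_of_mem_primeFactors hjn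
      have hj3 : j % 4 = 3 := by
        rcases hdeg.1 j hjp ((Nat.dvd_of_mem_primeFactors hjn).trans hnm) with h | h
        · exact absurd (h ▸ Nat.dvd_of_mem_primeFactors hjn) hn2
        · exact h
      rcases hjac j hjp hjS with h9 | h9
      · left; exact h9
      · right; exact ⟨hj3, h9⟩
    · intro V hVn hSV h2V
      exact (hS' V h2V).mpr (hV V (hVn.trans hpf) hSV h2V)

end Run7.h957.TF
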